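import Pool.Agent.H67.PI.Red

/-! Reduction of words in elements of a Jordan algebra `J` of an associative algebra modulo a
multilinear associative identity of `J`. -/

namespace Pool.Agent.V7H58.JE

open Pool.Agent.H67.PI

universe u v

section comb

variable {N : ℕ}

/-- `w` contains `d` consecutive blocks, each led by a letter greater than all other letters of
the block, and these first letters decrease -/
def HasChain (d : ℕ) (w : List (Fin N)) : Prop :=
  ∃ (u v : List (Fin N)) (L : List (Fin N × List (Fin N))),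
    w = u ++ (L.map fun b => b.1 :: b.2).flatten ++ v ∧
    L.length = d ∧ (L.map Prod.fst).Pairwise (· > ·) ∧ ∀ b ∈ L, ∀ z ∈ b.2, z < b.1

theorem HasChain.append {d : ℕ} {w : List (Fin N)} (h : HasChain d w) (s : List (Fin N)) :
    HasChain d (w ++ s) := by
  obtain ⟨u, v, L, rfl, h1, h2, h3⟩ := h
  exact ⟨u, v ++ s, L, by simp, h1, h2, h3⟩

theorem HasChain.cons_max {d : ℕ} {R : List (Fin N)} (h : HasChain d R) {x : Fin N}
    (hx : ∀ z ∈ R, z < x) (L0 : List (Fin N)) : HasChain (d + 1) (L0 ++ x :: R) := by
  obtain ⟨u, v, L, rfl, h1, h2, h3⟩ := h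
  refine ⟨L0, v, (x, u) :: L, by simp, by simp [h1], ?_, ?_⟩
  · rw [List.map_cons, List.pairwise_cons]
    refine ⟨?_, h2⟩
    intro y hy
    obtain ⟨b, hb, rfl⟩ := List.mem_map.1 hy
    apply hx
    simp only [List.mem_append, List.mem_flatten, List.mem_map]
    refine Or.inl (Or.inr ⟨b.1 :: b.2, ⟨b, hb, rfl⟩, by simp⟩)
  · intro b hb z hz
    rcases List.mem_cons.1 hb with rfl | hb
    · exact hx z (by simp only [List.mem_append]; exact Or.inl (Or.inl hz))
    · exact h3 b hb z hz

theorem hasChain_zero (w : List (Fin N)) : HasChain 0 w :=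
  ⟨w, [], [], by simp, rfl, List.Pairwise.nil, by simp⟩

/-- lifting blocks from the subword of the big letters -/
theorem lift_aux (p : Fin N → Bool) (hp : ∀ x y, p x = true → p y = false → y < x)
    (L : List (Fin N × List (Fin N))) (hL : ∀ b ∈ L, ∀ z ∈ b.2, z < b.1) :
    ∀ (w v : List (Fin N)), w.filter p = (L.map fun b => b.1 :: b.2).flatten ++ v →
    ∃ (s v' : List (Fin N)) (L' : List (Fin N × List (Fin N))),
      w = s ++ (L'.map fun b => b.1 :: b.2).flatten ++ v' ∧ (∀ z ∈ s, p z = false) ∧
      L'.map Prod.fst = L.map Prod.fst ∧ ∀ b ∈ L', ∀ z ∈ b.2, z < b.1 := by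
  induction L with
  | nil =>
    intro w v _
    exact ⟨[], w, [], by simp, by simp, rfl, by simp⟩
  | cons b L ih =>
    intro w v hw
    rw [List.map_cons, List.flatten_cons, List.cons_append, List.cons_append,
      List.filter_eq_cons_iff] at hw
    obtain ⟨l1, l2, rfl, hl1, hpb, hl2⟩ := hw
    rw [List.append_assoc, List.filter_eq_append_iff] at hl2
    obtain ⟨l3, l4, rfl, hl3, hl4⟩ := hl2
    obtain ⟨s, v', L', rfl, hs, hL', hL'2⟩ := ih (fun b' hb' => hL b' (List.mem_cons_of_mem _ hb'))
      l4 v hl4
    refine ⟨l1, v', (b.1, l3 ++ s) :: L', by simp, ?_, by simp [hL'], ?_⟩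
    · intro z hz
      have := hl1 z hz
      simpa using this
    · intro b' hb' z hz
      rcases List.mem_cons.1 hb' with rfl | hb'
      · simp only [List.mem_append] at hz
        rcases hz with hz | hz
        · by_cases hpz : p z = true
          · apply hL b (by simp) z
            rw [← hl3]
            exact List.mem_filter.2 ⟨hz, hpz⟩
          · exact hp _ _ hpb (by simpa using hpz)
        · exact hp _ _ hpb (hs z hz)
      · exact hL'2 b' hb' z hz

theorem HasChain.of_filter (p : Fin N → Bool) (hp : ∀ x y, p x = true → p y = false → y < x)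
    {d : ℕ} {w : List (Fin N)} (h : HasChain d (w.filter p)) : HasChain d w := by
  obtain ⟨u, v, L, h0, h1, h2, h3⟩ := h
  rw [List.append_assoc, List.filter_eq_append_iff] at h0
  obtain ⟨l1, l2, rfl, -, h4⟩ := h0
  obtain ⟨s, v', L', rfl, -, h5, h6⟩ := lift_aux p hp L h3 l2 v h4
  refine ⟨l1 ++ s, v', L', by simp, ?_, ?_, h6⟩
  · rw [← h1, ← List.length_map (f := Prod.fst), h5, List.length_map]
  · rw [h5]; exact h2

theorem append_lt : ∀ {x y : List (Fin N)}, x.length = y.length → x < y →
    ∀ s t : List (Fin N), x ++ s < y ++ t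
  | [], [], _, h, _, _ => absurd h (lt_irrefl _)
  | [], _ :: _, hl, _, _, _ => by simp at hl
  | _ :: _, [], hl, _, _, _ => by simp at hl
  | a :: x, b :: y, hl, h, s, t => by
    cases h with
    | rel h => exact List.Lex.rel h
    | cons h => exact List.Lex.cons (append_lt (by simpa using hl) h s t)

end comb

section red

variable {F : Type u} [Field F] {C : Type v} [Ring C] [Algebra F C] {N : ℕ}

/-- combinations of values of smaller rearrangements of `w` -/
def Dlt (F : Type u) [Field F] {C : Type v} [Ring C] [Algebra F C] (e : Fin N → C)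
    (w : List (Fin N)) : Submodule F C :=
  Submodule.span F {z | ∃ w' : List (Fin N), w'.Perm w ∧ w' < w ∧ z = (w'.map e).prod}

variable {e : Fin N → C}

theorem mem_Dlt {w w' : List (Fin N)} (hp : w'.Perm w) (hlt : w' < w) :
    (w'.map e).prod ∈ Dlt F e w := Submodule.subset_span ⟨w', hp, hlt, rfl⟩

theorem Dlt_le {w w' : List (Fin N)} (hp : w'.Perm w) (hlt : w' < w) :
    Dlt F e w' ≤ Dlt F e w := by
  apply Submodule.span_le.2
  rintro z ⟨v, hv1, hv2, rfl⟩
  exact mem_Dlt (hv1.trans hp) (hv2.trans hlt)

theorem Dlt_mul_word {w : List (Fin N)} {f : C} (hf : f ∈ Dlt F e w) (t : List (Fin N)) :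
    f * (t.map e).prod ∈ Dlt F e (w ++ t) := by
  unfold Dlt at hf
  induction hf using Submodule.span_induction with
  | mem z hz =>
    obtain ⟨v, hv1, hv2, rfl⟩ := hz
    rw [← List.prod_append, ← List.map_append]
    exact mem_Dlt (hv1.append_right t) (append_lt hv1.length_eq hv2 t t)
  | zero => rw [zero_mul]; exact Submodule.zero_mem _
  | add x y _ _ hx hy => rw [add_mul]; exact Submodule.add_mem _ hx hy
  | smul c x _ hx => rw [smul_mul_assoc]; exact Submodule.smul_mem _ c hx

theorem word_mul_Dlt {w : List (Fin N)} {f : C} (hf : f ∈ Dlt F e w) (t : List (Fin N)) :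
    (t.map e).prod * f ∈ Dlt F e (t ++ w) := by
  unfold Dlt at hf
  induction hf using Submodule.span_induction with
  | mem z hz =>
    obtain ⟨v, hv1, hv2, rfl⟩ := hz
    rw [← List.prod_append, ← List.map_append]
    exact mem_Dlt (hv1.append_left t) (lex_lt _ _ _ hv2)
  | zero => rw [mul_zero]; exact Submodule.zero_mem _
  | add x y _ _ hx hy => rw [mul_add]; exact Submodule.add_mem _ hx hy
  | smul c x _ hx => rw [mul_smul_comm]; exact Submodule.smul_mem _ c hx

theorem Dlt_mul_Dlt {w w' : List (Fin N)} {f g : C} (hf : f ∈ Dlt F e w) (hg : g ∈ Dlt F e w') :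
    f * g ∈ Dlt F e (w ++ w') := by
  unfold Dlt at hg
  induction hg using Submodule.span_induction with
  | mem z hz =>
    obtain ⟨v, hv1, hv2, rfl⟩ := hz
    have h1 := Dlt_mul_word hf v
    exact Dlt_le (hv1.append_left w) (lex_lt _ _ _ hv2) h1
  | zero => rw [mul_zero]; exact Submodule.zero_mem _
  | add x y _ _ hx hy => rw [mul_add]; exact Submodule.add_mem _ hx hy
  | smul c x _ hx => rw [mul_smul_comm]; exact Submodule.smul_mem _ c hx

/-- `f` has leading word `w` -/
def Near (F : Type u) [Field F] {C : Type v} [Ring C] [Algebra F C] (e : Fin N → C) (f : C)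
    (w : List (Fin N)) : Prop := f - (w.map e).prod ∈ Dlt F e w

theorem Near.mul {f g : C} {w w' : List (Fin N)} (hf : Near F e f w) (hg : Near F e g w') :
    Near F e (f * g) (w ++ w') := by
  unfold Near at *
  have h1 := Dlt_mul_Dlt hf hg
  have h2 := Dlt_mul_word hf w'
  have h3 := word_mul_Dlt hg w
  have key := Submodule.add_mem _ (Submodule.add_mem _ h1 h2) h3
  convert key using 1
  rw [List.map_append, List.prod_append]
  noncomm_ring

/-- the Jordan polynomial with leading word `y v` -/
def P (e : Fin N → C) (y : Fin N) (v : List (Fin N)) : C :=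
  v.foldl (fun z x => z * e x + e x * z) (e y)

theorem P_append (y x : Fin N) (v : List (Fin N)) :
    P e y (v ++ [x]) = P e y v * e x + e x * P e y v := by
  simp [P, List.foldl_append]

theorem P_mem {J : Submodule F C} (hJ : ∀ x ∈ J, ∀ y ∈ J, x * y + y * x ∈ J)
    (he : ∀ i, e i ∈ J) (y : Fin N) (v : List (Fin N)) : P e y v ∈ J := by
  induction v using List.reverseRecOn with
  | nil => exact he y
  | append_singleton v x ih => rw [P_append]; exact hJ _ ih _ (he x)

theorem P_near (y : Fin N) (v : List (Fin N)) (hv : ∀ z ∈ v, z < y) :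
    Near F e (P e y v) (y :: v) := by
  induction v using List.reverseRecOn with
  | nil => simp [Near, P]
  | append_singleton v x ih =>
    have ih' := ih (fun z hz => hv z (List.mem_append_left _ hz))
    have hxy : x < y := hv x (by simp)
    unfold Near at *
    rw [P_append]
    have hgen : ∀ w' : List (Fin N), w'.Perm (y :: v) →
        ((x :: w').map e).prod ∈ Dlt F e (y :: (v ++ [x])) := by
      intro w' hw'
      apply mem_Dlt
      · refine List.Perm.trans (hw'.cons x) ?_
        rw [← List.cons_append]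
        exact (List.perm_append_singleton x (y :: v)).symm
      · exact List.Lex.rel hxy
    have h1 : P e y v * e x - ((y :: (v ++ [x])).map e).prod ∈ Dlt F e (y :: (v ++ [x])) := by
      have := Dlt_mul_word ih' [x]
      rw [List.cons_append] at this
      convert this using 1
      simp [sub_mul, mul_assoc]
    have h2 : e x * P e y v ∈ Dlt F e (y :: (v ++ [x])) := by
      have h3' : ∀ f ∈ Dlt F e (y :: v), e x * f ∈ Dlt F e (y :: (v ++ [x])) := by
        intro f hf
        unfold Dlt at hf
        induction hf using Submodule.span_induction with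
        | mem z hz =>
          obtain ⟨w', hv1, -, rfl⟩ := hz
          have := hgen w' hv1
          rwa [List.map_cons, List.prod_cons] at this
        | zero => rw [mul_zero]; exact Submodule.zero_mem _
        | add x y _ _ hx hy => rw [mul_add]; exact Submodule.add_mem _ hx hy
        | smul c x _ hx => rw [mul_smul_comm]; exact Submodule.smul_mem _ c hx
      have h3 := h3' _ ih'
      have h4 := hgen (y :: v) (List.Perm.refl _)
      rw [List.map_cons, List.prod_cons] at h4
      have := Submodule.add_mem _ h3 h4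
      convert this using 1
      noncomm_ring
    have := Submodule.add_mem _ h1 h2
    convert this using 1
    abel

theorem blocks_near (L : List (Fin N × List (Fin N))) (hL : ∀ b ∈ L, ∀ z ∈ b.2, z < b.1) :
    Near F e (L.map fun b => P e b.1 b.2).prod (L.map fun b => b.1 :: b.2).flatten := by
  induction L with
  | nil => simp [Near]
  | cons b L ih =>
    rw [List.map_cons, List.map_cons, List.prod_cons, List.flatten_cons]
    exact (P_near b.1 b.2 (hL b (by simp))).mul
      (ih fun b' hb' => hL b' (List.mem_cons_of_mem _ hb'))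

theorem chain_mem {J : Submodule F C} (hJ : ∀ x ∈ J, ∀ y ∈ J, x * y + y * x ∈ J)
    (he : ∀ i, e i ∈ J) {d : ℕ} (c : Equiv.Perm (Fin d) → F) (hc1 : c 1 = 1)
    (hc : ∀ a : Fin d → C, (∀ i, a i ∈ J) → ∑ τ, c τ • (List.ofFn fun k => a (τ k)).prod = 0)
    {w : List (Fin N)} (hw : HasChain d w) : (w.map e).prod ∈ Dlt F e w := by
  classical
  obtain ⟨u, v, L, rfl, hl, hpw, hL⟩ := hw
  obtain ⟨B, rfl⟩ := exists_ofFn L hl
  have hanti : StrictAnti fun i => (B i).1 := by
    rw [List.map_ofFn, List.pairwise_ofFn] at hpw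
    intro i j hij
    exact hpw hij
  have hB : ∀ i, ∀ z ∈ (B i).2, z < (B i).1 := by
    intro i
    exact hL (B i) (List.mem_ofFn.2 ⟨i, rfl⟩)
  set W : Equiv.Perm (Fin d) → List (Fin N) := fun τ =>
    (List.ofFn fun k => (B (τ k)).1 :: (B (τ k)).2).flatten with hW
  have hnear : ∀ τ : Equiv.Perm (Fin d),
      Near F e (List.ofFn fun k => P e (B (τ k)).1 (B (τ k)).2).prod (W τ) := by
    intro τ
    have h := blocks_near (F := F) (e := e) (List.ofFn fun k => B (τ k)) (by
      intro b hb
      obtain ⟨i, rfl⟩ := List.mem_ofFn.1 hb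
      exact hB _)
    rw [List.map_ofFn, List.map_ofFn] at h
    exact h
  have hWp : ∀ τ, (W τ).Perm (W 1) := by
    intro τ
    apply List.Perm.flatten
    exact Equiv.Perm.ofFn_comp_perm τ (fun k => (B k).1 :: (B k).2)
  have hother : ∀ τ ∈ Finset.univ.erase (1 : Equiv.Perm (Fin d)),
      c τ • (List.ofFn fun k => P e (B (τ k)).1 (B (τ k)).2).prod ∈ Dlt F e (W 1) := by
    intro τ hτ
    have hlt : W τ < W 1 := perm_lt B hanti τ (Finset.mem_erase.1 hτ).1
    apply Submodule.smul_mem
    have h1 := Dlt_le (hWp τ) hlt (hnear τ)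
    have h2 := Submodule.add_mem _ h1 (mem_Dlt (F := F) (e := e) (hWp τ) hlt)
    simpa using h2
  have h3 := hc (fun i => P e (B i).1 (B i).2) (fun i => P_mem hJ he _ _)
  rw [← Finset.add_sum_erase _ _ (Finset.mem_univ (1 : Equiv.Perm (Fin d)))] at h3
  simp only [hc1, one_smul] at h3
  have h4 := Submodule.sum_mem _ hother
  have h5 : (List.ofFn fun k => P e (B ((1 : Equiv.Perm (Fin d)) k)).1
      (B ((1 : Equiv.Perm (Fin d)) k)).2).prod ∈ Dlt F e (W 1) := by
    rw [eq_neg_of_add_eq_zero_left h3]
    exact Submodule.neg_mem _ h4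
  have h6 : ((W 1).map e).prod ∈ Dlt F e (W 1) := by
    have := Submodule.sub_mem _ h5 (hnear 1)
    simpa using this
  have h7 := Dlt_mul_word (word_mul_Dlt h6 u) v
  have h8 : (List.map (fun b => b.1 :: b.2) (List.ofFn B)).flatten = W 1 := by
    rw [List.map_ofFn]
    rfl
  rw [h8, List.map_append, List.map_append, List.prod_append, List.prod_append]
  exact h7

/-- every word in elements of `J` is a combination of rearrangements without chain -/
theorem reduce_mem {J : Submodule F C} (hJ : ∀ x ∈ J, ∀ y ∈ J, x * y + y * x ∈ J)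
    (he : ∀ i, e i ∈ J) {d : ℕ} (c : Equiv.Perm (Fin d) → F) (hc1 : c 1 = 1)
    (hc : ∀ a : Fin d → C, (∀ i, a i ∈ J) → ∑ τ, c τ • (List.ofFn fun k => a (τ k)).prod = 0)
    (w : List (Fin N)) : (w.map e).prod ∈
      Submodule.span F {z | ∃ w' : List (Fin N), w'.Perm w ∧ ¬ HasChain d w' ∧
        z = (w'.map e).prod} := by
  classical
  have hfin : {v : List (Fin N) | v.Perm w}.Finite := by
    refine (w.permutations.toFinset.finite_toSet).subset ?_
    intro v hv
    simp [List.mem_permutations]
    exact hv
  have hwf : {v : List (Fin N) | v.Perm w}.WellFoundedOn (· < ·) := hfin.wellFoundedOn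
  have hmain : ∀ v ∈ {v : List (Fin N) | v.Perm w}, (v.map e).prod ∈
      Submodule.span F {z | ∃ w' : List (Fin N), w'.Perm w ∧ ¬ HasChain d w' ∧
        z = (w'.map e).prod} := by
    intro v0 hv0
    apply Set.WellFoundedOn.induction hwf (P := fun v => (v.map e).prod ∈
      Submodule.span F {z | ∃ w' : List (Fin N), w'.Perm w ∧ ¬ HasChain d w' ∧
        z = (w'.map e).prod}) hv0
    intro v hv ih
    have hv' : v.Perm w := hv
    by_cases hg : HasChain d v
    · have h1 := chain_mem hJ he c hc1 hc hg
      refine (Submodule.span_le.2 ?_) h1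
      rintro z ⟨w', hw1, hw2, rfl⟩
      exact ih w' (hw1.trans hv') hw2
    · exact Submodule.subset_span ⟨v, hv', hg, rfl⟩
  exact hmain w (List.Perm.refl w)

end red

end Pool.Agent.V7H58.JE
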