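import Pool.Agent.V7H58.JE.Chain

/-! The number of permutations without a chain of length `d` is less than `n! / R ^ n`, for every
`R`, for all large `n`. -/

namespace Pool.Agent.V7H58.JE

open Finset

open Classical in
/-- the arrangements of the elements of `T` without chain of length `d` -/
noncomputable def G {N : ℕ} (d : ℕ) (T : Finset (Fin N)) : Finset (List (Fin N)) :=
  (T.toList.permutations.toFinset).filter fun l => ¬ HasChain d l

theorem mem_G {N d : ℕ} {T : Finset (Fin N)} {l : List (Fin N)} :
    l ∈ G d T ↔ l.Perm T.toList ∧ ¬ HasChain d l := by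
  classical
  simp [G, List.mem_permutations]

theorem card_G_le {N : ℕ} (d : ℕ) (T : Finset (Fin N)) : (G d T).card ≤ T.card.factorial := by
  classical
  refine (Finset.card_filter_le _ _).trans ?_
  refine (List.toFinset_card_le _).trans ?_
  rw [List.length_permutations, Finset.length_toList]

theorem G_subset {N d : ℕ} (T : Finset (Fin N)) (x : Fin N) (hx : x ∈ T)
    (hmax : ∀ z ∈ T, z ≤ x) :
    G (d + 1) T ⊆ (T.erase x).powerset.biUnion fun T1 =>
      (G (d + 1) T1 ×ˢ G d ((T.erase x) \ T1)).image fun q => q.1 ++ x :: q.2 := by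
  classical
  intro l hl
  rw [mem_G] at hl
  obtain ⟨hp, hc⟩ := hl
  have hnd : l.Nodup := hp.nodup_iff.2 (Finset.nodup_toList T)
  have hmem : ∀ z, z ∈ l ↔ z ∈ T := fun z => by rw [hp.mem_iff, Finset.mem_toList]
  obtain ⟨L, R, rfl⟩ := List.append_of_mem ((hmem x).2 hx)
  rw [List.nodup_append] at hnd
  obtain ⟨hL, hR', hdisj⟩ := hnd
  rw [List.nodup_cons] at hR'
  obtain ⟨hxR, hR⟩ := hR'
  have hxL : x ∉ L := fun h => hdisj x h x (by simp) rfl
  simp only [mem_biUnion, mem_powerset, mem_image, mem_product, Prod.exists]
  refine ⟨L.toFinset, ?_, L, R, ⟨?_, ?_⟩, rfl⟩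
  · intro z hz
    rw [List.mem_toFinset] at hz
    rw [mem_erase]
    refine ⟨fun h => hxL (h ▸ hz), (hmem z).1 (by simp [hz])⟩
  · rw [mem_G]
    exact ⟨(List.toFinset_toList hL).symm, fun h => hc (h.append _)⟩
  · rw [mem_G]
    constructor
    · rw [List.perm_ext_iff_of_nodup hR (Finset.nodup_toList _)]
      intro z
      rw [Finset.mem_toList, mem_sdiff, mem_erase, List.mem_toFinset, ← hmem]
      simp only [List.mem_append, List.mem_cons]
      constructor
      · intro hz
        refine ⟨⟨fun h => hxR (h ▸ hz), Or.inr (Or.inr hz)⟩, fun h => hdisj z h z (by simp [hz]) rfl⟩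
      · rintro ⟨⟨h1, h2 | h2 | h2⟩, h3⟩
        · exact absurd h2 h3
        · exact absurd h2 h1
        · exact h2
    · intro h
      apply hc
      apply h.cons_max
      intro z hz
      have hzT : z ∈ T := (hmem z).1 (by simp [hz])
      exact lt_of_le_of_ne (hmax z hzT) (fun h => hxR (h ▸ hz))

theorem card_G_step {N d : ℕ} (T : Finset (Fin N)) (x : Fin N) (hx : x ∈ T)
    (hmax : ∀ z ∈ T, z ≤ x) :
    (G (d + 1) T).card ≤ ∑ T1 ∈ (T.erase x).powerset,
      (G (d + 1) T1).card * (G d ((T.erase x) \ T1)).card := by
  classical
  refine (card_le_card (G_subset T x hx hmax)).trans ?_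
  refine card_biUnion_le.trans ?_
  apply Finset.sum_le_sum
  intro T1 _
  refine card_image_le.trans ?_
  rw [card_product]

theorem count (d : ℕ) : ∀ R : ℕ, ∃ K : ℕ, ∀ (N : ℕ) (T : Finset (Fin N)),
    (G d T).card * R ^ T.card ≤ K * T.card.factorial := by
  classical
  induction d with
  | zero =>
    intro R
    refine ⟨0, fun N T => ?_⟩
    have : G 0 T = ∅ := by
      apply Finset.eq_empty_of_forall_notMem
      intro l hl
      exact (mem_G.1 hl).2 (hasChain_zero l)
    rw [this]
    simp
  | succ d ih =>
    intro R
    obtain ⟨K', hK'⟩ := ih (2 * R)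
    set n0 := 2 * K' * R with hn0
    refine ⟨(R + 1) ^ n0, fun N => ?_⟩
    have main : ∀ n : ℕ, ∀ T : Finset (Fin N), T.card = n →
        (G (d + 1) T).card * R ^ n ≤ (R + 1) ^ n0 * n.factorial := by
      intro n
      induction n using Nat.strong_induction_on with
      | _ n ihn =>
        intro T hT
        rcases Nat.lt_or_ge n0 n with hn | hn
        · obtain ⟨n, rfl⟩ : ∃ n', n = n' + 1 := ⟨n - 1, by omega⟩
          have hne : T.Nonempty := by
            rw [← Finset.card_pos, hT]; omega
          have hstep := card_G_step (d := d) T (T.max' hne) (T.max'_mem hne)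
            (fun z hz => T.le_max' z hz)
          set T' := T.erase (T.max' hne) with hT'
          have hT'c : T'.card = n := by
            rw [hT', card_erase_of_mem (T.max'_mem hne), hT]; rfl
          have h1 : ∀ T1 ∈ T'.powerset,
              ((G (d + 1) T1).card * (G d (T' \ T1)).card) * (R ^ n * 2 ^ n) ≤
              (fun i => ((R + 1) ^ n0 * K') * (i.factorial * (n - i).factorial * 2 ^ i)) T1.card := by
            intro T1 hT1
            rw [mem_powerset] at hT1
            have hi : T1.card ≤ n := by rw [← hT'c]; exact card_le_card hT1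
            have hd : (T' \ T1).card = n - T1.card := by
              rw [card_sdiff_of_subset hT1, hT'c]
            have e1 := ihn T1.card (by omega) T1 rfl
            have e2 := hK' N (T' \ T1)
            rw [hd] at e2
            have e3 := Nat.mul_le_mul e1 e2
            have e4 := Nat.mul_le_mul_right (2 ^ T1.card) e3
            have e5 : R ^ n * 2 ^ n = R ^ T1.card * (2 * R) ^ (n - T1.card) * 2 ^ T1.card := by
              obtain ⟨r, hr⟩ : ∃ r, n = T1.card + r := ⟨n - T1.card, by omega⟩
              rw [hr, Nat.add_sub_cancel_left, mul_pow, pow_add, pow_add]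
              ring
            rw [e5]
            calc _ = (G (d + 1) T1).card * R ^ T1.card *
                ((G d (T' \ T1)).card * (2 * R) ^ (n - T1.card)) * 2 ^ T1.card := by ring
              _ ≤ _ := e4
              _ = _ := by ring
          have h2 := Finset.sum_le_sum h1
          rw [Finset.sum_powerset_apply_card
            (fun i => ((R + 1) ^ n0 * K') * (i.factorial * (n - i).factorial * 2 ^ i)), hT'c,
            ← Finset.sum_mul] at h2
          have h3 : ∑ i ∈ range (n + 1), n.choose i •
              (((R + 1) ^ n0 * K') * (i.factorial * (n - i).factorial * 2 ^ i)) =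
              ((R + 1) ^ n0 * K' * n.factorial) * (2 ^ (n + 1) - 1) := by
            have h4 : ∑ i ∈ range (n + 1), 2 ^ i = 2 ^ (n + 1) - 1 := by
              have := Nat.geomSum_eq (m := 2) (le_refl 2) (n + 1)
              rw [this]
              simp
            rw [← h4, Finset.mul_sum]
            apply Finset.sum_congr rfl
            intro i hi
            rw [mem_range] at hi
            rw [smul_eq_mul, ← Nat.choose_mul_factorial_mul_factorial (show i ≤ n by omega)]
            ring
          rw [h3] at h2
          have h5 : (G (d + 1) T).card * R ^ n * 2 ^ n ≤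
              (2 * ((R + 1) ^ n0 * K' * n.factorial)) * 2 ^ n := by
            calc (G (d + 1) T).card * R ^ n * 2 ^ n = (G (d + 1) T).card * (R ^ n * 2 ^ n) := by
                  ring
              _ ≤ _ := Nat.mul_le_mul_right _ hstep
              _ ≤ _ := h2
              _ ≤ ((R + 1) ^ n0 * K' * n.factorial) * 2 ^ (n + 1) :=
                  Nat.mul_le_mul_left _ (Nat.sub_le _ _)
              _ = _ := by ring
          have h6 := Nat.le_of_mul_le_mul_right h5 (by positivity)
          rw [Nat.factorial_succ]
          calc (G (d + 1) T).card * R ^ (n + 1) = ((G (d + 1) T).card * R ^ n) * R := by ring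
            _ ≤ (2 * ((R + 1) ^ n0 * K' * n.factorial)) * R := Nat.mul_le_mul_right _ h6
            _ = (R + 1) ^ n0 * (n0 * n.factorial) := by rw [hn0]; ring
            _ ≤ _ := Nat.mul_le_mul_left _ (Nat.mul_le_mul_right _ (le_of_lt hn))
        · have h1 := card_G_le (d + 1) T
          rw [hT] at h1
          have h2 : R ^ n ≤ (R + 1) ^ n0 :=
            (Nat.pow_le_pow_left (Nat.le_succ R) n).trans (Nat.pow_le_pow_right (by omega) hn)
          calc _ ≤ n.factorial * (R + 1) ^ n0 := Nat.mul_le_mul h1 h2
            _ = _ := by ring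
    intro T
    exact main _ T rfl

end Pool.Agent.V7H58.JE
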