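import Pool.Agent.V7H58.JE.Span
import Pool.Agent.V7H58.JE.Count

/-! The associative algebra generated by a finitely generated special Jordan algebra with a
polynomial identity satisfies a multilinear identity. -/

namespace Pool.Agent.V7H58.JE

open Finset

universe u v

theorem multilin_zero' {F : Type*} [Field F] {V W : Type*} [AddCommGroup V] [Module F V]
    [AddCommGroup W] [Module F W] {m : ℕ} (g : MultilinearMap F (fun _ : Fin m => V) W)
    (E : Set V) (h : ∀ X : Fin m → V, (∀ j, X j ∈ E) → g X = 0)
    (X : Fin m → V) (hX : ∀ j, X j ∈ Submodule.span F E) : g X = 0 := by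
  classical
  have key : ∀ s : Finset (Fin m), ∀ X : Fin m → V, (∀ j, j ∉ s → X j ∈ E) →
      (∀ j, X j ∈ Submodule.span F E) → g X = 0 := by
    intro s
    induction s using Finset.induction_on with
    | empty => intro X hX _; exact h X (fun j => hX j (by simp))
    | insert i s his ih =>
      intro X hX hX2
      have h1 : ∀ y ∈ Submodule.span F E, g (Function.update X i y) = 0 := by
        intro y hy
        induction hy using Submodule.span_induction with
        | mem y hy =>
          apply ih
          · intro j hj
            by_cases hji : j = i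
            · subst hji; rwa [Function.update_self]
            · rw [Function.update_of_ne hji]
              exact hX j (by simp [hji, hj])
          · intro j
            by_cases hji : j = i
            · subst hji; rw [Function.update_self]; exact Submodule.subset_span hy
            · rw [Function.update_of_ne hji]; exact hX2 j
        | zero => exact g.map_update_zero X i
        | add y z _ _ h1 h2 => rw [g.map_update_add, h1, h2, add_zero]
        | smul c y _ h1 => rw [g.map_update_smul, h1, smul_zero]
      have := h1 (X i) (hX2 i)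
      rwa [Function.update_eq_self] at this
  exact key univ X (fun j hj => absurd (mem_univ j) hj) hX

section

variable {F : Type u} [Field F] {C : Type v} [Ring C] [Algebra F C]

theorem reduce_univ {N : ℕ} {J : Submodule F C} (hJ : ∀ x ∈ J, ∀ y ∈ J, x * y + y * x ∈ J)
    {d : ℕ} (c : Equiv.Perm (Fin d) → F) (hc1 : c 1 = 1)
    (hc : ∀ a : Fin d → C, (∀ i, a i ∈ J) → ∑ τ, c τ • (List.ofFn fun k => a (τ k)).prod = 0)
    (w : List (Fin N)) :
    ∃ r : List (Fin N) →₀ F, (∀ v ∈ r.support, v.Perm w ∧ ¬ HasChain d v) ∧
      ∀ e : Fin N → C, (∀ i, e i ∈ J) →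
        (w.map e).prod = Finsupp.linearCombination F (fun v : List (Fin N) => (v.map e).prod) r := by
  classical
  let Ev := {e : Fin N → C // ∀ i, e i ∈ J}
  let J' : Submodule F (Ev → C) := Submodule.pi Set.univ fun _ => J
  have hmem : ∀ f : Ev → C, f ∈ J' ↔ ∀ e, f e ∈ J := by
    intro f
    simp [J', Submodule.mem_pi]
  let e' : Fin N → (Ev → C) := fun x e => e.1 x
  have hprod : ∀ (l : List (Ev → C)) (e : Ev), l.prod e = (l.map fun f => f e).prod := by
    intro l e
    exact map_list_prod (Pi.evalRingHom (fun _ : Ev => C) e) l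
  have h1 := reduce_mem (F := F) (C := Ev → C) (J := J') (e := e')
    (by
      intro x hx y hy
      rw [hmem] at *
      intro e
      exact hJ _ (hx e) _ (hy e))
    (by
      intro i
      rw [hmem]
      intro e
      exact e.2 i)
    c hc1
    (by
      intro a ha
      funext e
      have h := hc (fun i => a i e) (fun i => (hmem _).1 (ha i) e)
      rw [Finset.sum_apply, Pi.zero_apply, ← h]
      apply Finset.sum_congr rfl
      intro τ _
      rw [Pi.smul_apply, hprod, List.map_ofFn]
      rfl)
    w
  have h2 : {z : Ev → C | ∃ w' : List (Fin N), w'.Perm w ∧ ¬ HasChain d w' ∧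
      z = (w'.map e').prod} =
      (fun v : List (Fin N) => (v.map e').prod) '' {w' | w'.Perm w ∧ ¬ HasChain d w'} := by
    ext z
    simp only [Set.mem_ofPred_eq, Set.mem_image]
    constructor
    · rintro ⟨w', h1, h2, rfl⟩; exact ⟨w', ⟨h1, h2⟩, rfl⟩
    · rintro ⟨w', ⟨h1, h2⟩, rfl⟩; exact ⟨w', h1, h2, rfl⟩
  rw [h2, Finsupp.mem_span_image_iff_linearCombination] at h1
  obtain ⟨r, hr1, hr2⟩ := h1
  refine ⟨r, fun v hv => ?_, fun e he => ?_⟩
  · rw [Finsupp.mem_supported] at hr1
    exact hr1 hv
  · have h3 := congrFun hr2 ⟨e, he⟩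
    rw [hprod, List.map_map] at h3
    rw [Finsupp.linearCombination_apply, Finsupp.sum] at h3 ⊢
    rw [Finset.sum_apply] at h3
    have h4 : (List.map ((fun f : Ev → C => f ⟨e, he⟩) ∘ e') w).prod = (w.map e).prod := rfl
    rw [h4] at h3
    rw [← h3]
    apply Finset.sum_congr rfl
    intro v _
    rw [Pi.smul_apply, hprod, List.map_map]
    rfl

end

section words

variable (k m : ℕ)

/-- the big letters -/
def big (x : Fin (k + m)) : Bool := decide (k ≤ x.val)

/-- forget which big letter it is -/
def col (x : Fin (k + m)) : Fin (k + 1) := ⟨min x.val k, by omega⟩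

theorem big_lt (x y : Fin (k + m)) (hx : big k m x = true) (hy : big k m y = false) : y < x := by
  simp only [big, decide_eq_true_eq, decide_eq_false_iff_not] at hx hy
  rw [Fin.lt_def]
  omega

theorem recon : ∀ (w w' : List (Fin (k + m))), w.filter (big k m) = w'.filter (big k m) →
    w.map (col k m) = w'.map (col k m) → w = w'
  | [], [], _, _ => rfl
  | [], _ :: _, _, h => by simp at h
  | _ :: _, [], _, h => by simp at h
  | x :: w, y :: w', h1, h2 => by
    rw [List.map_cons, List.map_cons, List.cons.injEq] at h2
    obtain ⟨hxy, h2⟩ := h2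
    have hc : min x.val k = min y.val k := by
      have := congrArg Fin.val hxy
      simpa [col] using this
    by_cases hx : big k m x = true
    · have hy : big k m y = true := by
        simp only [big, decide_eq_true_eq] at hx ⊢
        omega
      rw [List.filter_cons_of_pos hx, List.filter_cons_of_pos hy, List.cons.injEq] at h1
      rw [h1.1, recon w w' h1.2 h2]
    · have hy : ¬ big k m y = true := by
        simp only [big, decide_eq_true_eq] at hx ⊢
        omega
      rw [List.filter_cons_of_neg hx, List.filter_cons_of_neg hy] at h1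
      have hxy : x = y := by
        simp only [big, decide_eq_true_eq] at hx hy
        apply Fin.ext
        omega
      rw [hxy, recon w w' h1 h2]

/-- the set of the big letters -/
def bigs : Finset (Fin (k + m)) := univ.map (Fin.natAddEmb k)

theorem card_bigs : (bigs k m).card = m := by simp [bigs]

/-- the good words -/
def GWset (d : ℕ) : Set (List (Fin (k + m))) :=
  {w | w.length ≤ m * (k + 1) ∧ (w.filter (big k m)).Perm (bigs k m).toList ∧ ¬ HasChain d w}

theorem GW_finite (d : ℕ) : (GWset k m d).Finite :=
  (List.finite_length_le (Fin (k + m)) (m * (k + 1))).subset fun _ hw => hw.1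

theorem card_GW (d : ℕ) : (GW_finite k m d).toFinset.card ≤
    (G d (bigs k m)).card * (k + 2) ^ (m * (k + 1)) := by
  classical
  have h1 : (G d (bigs k m) ×ˢ
      (univ : Finset (Fin (m * (k + 1)) → Option (Fin (k + 1))))).card =
      (G d (bigs k m)).card * (k + 2) ^ (m * (k + 1)) := by
    rw [card_product, card_univ, Fintype.card_fun, Fintype.card_option, Fintype.card_fin,
      Fintype.card_fin]
  rw [← h1]
  apply Finset.card_le_card_of_injOn
    (fun w => (w.filter (big k m), fun i : Fin (m * (k + 1)) => (w.map (col k m))[i.val]?))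
  · intro w hw
    rw [Set.Finite.coe_toFinset] at hw
    obtain ⟨hw1, hw2, hw3⟩ := hw
    simp only [coe_product, coe_univ, Set.mem_prod, Set.mem_univ, and_true, mem_coe]
    rw [mem_G]
    exact ⟨hw2, fun h => hw3 (h.of_filter _ (big_lt k m))⟩
  · intro w hw w' hw' h
    rw [Set.Finite.coe_toFinset] at hw hw'
    simp only [Prod.mk.injEq] at h
    apply recon k m _ _ h.1
    apply List.ext_getElem?
    intro i
    by_cases hi : i < m * (k + 1)
    · exact congrFun h.2 ⟨i, hi⟩
    · rw [List.getElem?_eq_none (by rw [List.length_map]; have := hw.1; omega),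
        List.getElem?_eq_none (by rw [List.length_map]; have := hw'.1; omega)]

end words

section main

variable {F : Type u} [Field F] {C : Type v} [Ring C] [Algebra F C]

/-- the word of a permutation -/
def W {k m : ℕ} (S : Fin m → List (Fin k)) (π : Equiv.Perm (Fin m)) : List (Fin (k + m)) :=
  (List.ofFn fun i => Fin.natAdd k (π i) :: (S (π i)).map (Fin.castAdd m)).flatten

theorem W_length {k m : ℕ} (S : Fin m → List (Fin k)) (hS : ∀ i, (S i).length < k + 1)
    (π : Equiv.Perm (Fin m)) : (W S π).length ≤ m * (k + 1) := by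
  rw [W, List.length_flatten, List.map_ofFn, List.sum_ofFn]
  refine (Finset.sum_le_card_nsmul univ _ (k + 1) ?_).trans (by simp)
  intro i _
  simp only [Function.comp_apply, List.length_cons, List.length_map]
  have := hS (π i)
  omega

theorem W_filter {k m : ℕ} (S : Fin m → List (Fin k)) (π : Equiv.Perm (Fin m)) :
    ((W S π).filter (big k m)).Perm (bigs k m).toList := by
  have h1 : (W S π).filter (big k m) = List.ofFn fun i => Fin.natAdd k (π i) := by
    rw [W, List.filter_flatten, List.map_ofFn]
    have h2 : (List.filter (big k m) ∘ fun i => Fin.natAdd k (π i) :: (S (π i)).map (Fin.castAdd m))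
        = fun i => [Fin.natAdd k (π i)] := by
      funext i
      simp only [Function.comp_apply]
      rw [List.filter_cons_of_pos (by simp [big])]
      congr 1
      rw [List.filter_eq_nil_iff]
      intro x hx
      obtain ⟨y, -, rfl⟩ := List.mem_map.1 hx
      simp [big]
    rw [h2]
    have h3 : (fun i : Fin m => [Fin.natAdd k (π i)]) = (fun x => [x]) ∘ (fun i : Fin m => Fin.natAdd k (π i)) := rfl
    rw [h3, ← List.map_ofFn]
    induction (List.ofFn fun i : Fin m => Fin.natAdd k (π i)) with
    | nil => rfl
    | cons x l ih => simp [ih]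
  rw [h1, List.perm_ext_iff_of_nodup]
  · intro x
    simp only [List.mem_ofFn, Finset.mem_toList, bigs, Finset.mem_map, mem_univ, true_and,
      Fin.natAddEmb_apply]
    constructor
    · rintro ⟨i, rfl⟩; exact ⟨π i, rfl⟩
    · rintro ⟨i, rfl⟩; exact ⟨π.symm i, by simp⟩
  · apply List.nodup_ofFn.2
    intro i j hij
    apply π.injective
    have := congrArg Fin.val hij
    simp at this
    exact Fin.ext (by simpa using this)
  · exact Finset.nodup_toList _

/-- the evaluation given by `a` on the small and by `b` on the big letters -/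
def ev {k m : ℕ} (a : Fin k → C) (b : Fin m → C) (i : Fin (k + m)) : C :=
  Fin.addCases (motive := fun _ => C) a b i

theorem ev_left {k m : ℕ} (a : Fin k → C) (b : Fin m → C) (i : Fin k) :
    ev a b (Fin.castAdd m i) = a i := by simp [ev]

theorem ev_right {k m : ℕ} (a : Fin k → C) (b : Fin m → C) (i : Fin m) :
    ev a b (Fin.natAdd k i) = b i := by simp [ev]

theorem W_prod {k m : ℕ} (S : Fin m → List (Fin k)) (π : Equiv.Perm (Fin m)) (a : Fin k → C)
    (b : Fin m → C) : ((W S π).map (ev a b)).prod =
      (List.ofFn fun i => b (π i) * ((S (π i)).map a).prod).prod := by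
  rw [W, List.map_flatten, List.prod_flatten, List.map_map, List.map_ofFn]
  congr 2
  funext i
  simp only [Function.comp_apply, List.map_cons, List.map_map, List.prod_cons, ev_right]
  congr 2
  apply List.map_congr_left
  intro x _
  exact ev_left a b x

theorem envelope_identity (h2 : (2 : F) ≠ 0) {J : Submodule F C}
    (hJ : ∀ x ∈ J, ∀ y ∈ J, x * y + y * x ∈ J) {k : ℕ} (a : Fin k → C) (ha : ∀ i, a i ∈ J)
    {d : ℕ} (c : Equiv.Perm (Fin d) → F) (hc1 : c 1 = 1)
    (hc : ∀ a : Fin d → C, (∀ i, a i ∈ J) → ∑ τ, c τ • (List.ofFn fun k => a (τ k)).prod = 0) :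
    ∃ (m : ℕ) (α : Equiv.Perm (Fin m) → F), 0 < m ∧ α ≠ 0 ∧
      ∀ X : Fin m → C, (∀ i, X i ∈ M J a (k + 1)) →
        ∑ π, α π • (List.ofFn fun i => X (π i)).prod = 0 := by
  classical
  have hSAfin : {w : List (Fin k) | w.length < k + 1}.Finite :=
    List.finite_length_lt (Fin k) (k + 1)
  set SA := hSAfin.toFinset with hSA
  obtain ⟨K, hK⟩ := count d (2 * SA.card * (k + 2) ^ (k + 1))
  obtain ⟨m, hm0, hmK⟩ : ∃ m : ℕ, 0 < m ∧ K < 2 ^ m :=
    ⟨K + 1, by omega, (Nat.lt_succ_self K).trans (Nat.lt_two_pow_self)⟩
  set GW := (GW_finite k m d).toFinset with hGW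
  have hcard : SA.card ^ m * GW.card < m.factorial := by
    have h1 := card_GW k m d
    have h3 := hK (k + m) (bigs k m)
    rw [card_bigs] at h3
    have h4 : (SA.card ^ m * GW.card) * 2 ^ m < m.factorial * 2 ^ m := by
      calc (SA.card ^ m * GW.card) * 2 ^ m ≤
          (SA.card ^ m * ((G d (bigs k m)).card * (k + 2) ^ (m * (k + 1)))) * 2 ^ m :=
            Nat.mul_le_mul_right _ (Nat.mul_le_mul_left _ h1)
        _ = (G d (bigs k m)).card * (2 * SA.card * (k + 2) ^ (k + 1)) ^ m := by
            rw [mul_pow, mul_pow, ← pow_mul, mul_comm m (k + 1)]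
            ring
        _ ≤ K * m.factorial := h3
        _ < 2 ^ m * m.factorial := Nat.mul_lt_mul_of_pos_right hmK (Nat.factorial_pos m)
        _ = m.factorial * 2 ^ m := by ring
    exact lt_of_mul_lt_mul_right h4 (Nat.zero_le _)
  have hred := fun w : List (Fin (k + m)) => reduce_univ (F := F) hJ c hc1 hc w
  choose R hR1 hR2 using hred
  let E := (Fin m → SA) × GW
  let Φ : (Equiv.Perm (Fin m) → F) →ₗ[F] (E → F) :=
    { toFun := fun α e => ∑ π, α π * R (W (fun i => (e.1 i).1) π) e.2.1
      map_add' := by
        intro α β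
        funext e
        simp only [Pi.add_apply, add_mul, Finset.sum_add_distrib]
      map_smul' := by
        intro t α
        funext e
        simp only [Pi.smul_apply, smul_eq_mul, RingHom.id_apply, Finset.mul_sum, mul_assoc] }
  have hrank : Module.finrank F (E → F) < Module.finrank F (Equiv.Perm (Fin m) → F) := by
    rw [Module.finrank_fintype_fun_eq_card, Module.finrank_fintype_fun_eq_card,
      Fintype.card_perm, Fintype.card_fin]
    refine lt_of_eq_of_lt ?_ hcard
    simp only [E, Fintype.card_prod, Fintype.card_coe, Fintype.card_fun, Fintype.card_fin]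
  have hker := LinearMap.ker_ne_bot_of_finrank_lt (f := Φ) hrank
  obtain ⟨α, hα1, hα0⟩ := Submodule.exists_mem_ne_zero_of_ne_bot hker
  have hα : ∀ e : E, ∑ π, α π * R (W (fun i => (e.1 i).1) π) e.2.1 = 0 := fun e =>
    congrFun (LinearMap.mem_ker.1 hα1) e
  refine ⟨m, α, hm0, hα0, ?_⟩
  have hρ : ∀ S : Fin m → List (Fin k), (∀ i, (S i).length < k + 1) →
      ∑ π, α π • R (W S π) = 0 := by
    intro S hS
    ext v
    rw [Finsupp.finsetSum_apply, Finsupp.coe_zero, Pi.zero_apply]
    by_cases hv : v ∈ GW
    · have := hα (fun i => ⟨S i, by rw [hSA, Set.Finite.mem_toFinset]; exact hS i⟩, ⟨v, hv⟩)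
      rw [← this]
      apply Finset.sum_congr rfl
      intro π _
      rw [Finsupp.smul_apply, smul_eq_mul]
    · apply Finset.sum_eq_zero
      intro π _
      have : R (W S π) v = 0 := by
        by_contra hne
        obtain ⟨h3, h4⟩ := hR1 (W S π) v (Finsupp.mem_support_iff.2 hne)
        apply hv
        rw [hGW, Set.Finite.mem_toFinset]
        refine ⟨?_, ?_, h4⟩
        · rw [h3.length_eq]; exact W_length S hS π
        · exact (h3.filter _).trans (W_filter S π)
      rw [Finsupp.smul_apply, this, smul_zero]
  let g : MultilinearMap F (fun _ : Fin m => C) C :=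
    ∑ π : Equiv.Perm (Fin m), α π •
      ((MultilinearMap.mkPiAlgebraFin F m C).domDomCongr π)
  have hg : ∀ X, g X = ∑ π, α π • (List.ofFn fun k => X (π k)).prod := by
    intro X
    simp only [g, _root_.sum_apply, _root_.smul_apply,
      MultilinearMap.domDomCongr_apply, MultilinearMap.mkPiAlgebraFin_apply]
  intro X hX
  rw [← hg]
  refine multilin_zero' g _ ?_ X hX
  intro Y hY
  choose b hb S hS hY using hY
  rw [hg]
  have he : ∀ i : Fin (k + m), ev a b i ∈ J := by
    intro i
    induction i using Fin.addCases with
    | left i => rw [ev_left]; exact ha i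
    | right i => rw [ev_right]; exact hb i
  have h1 : ∀ π : Equiv.Perm (Fin m), α π • (List.ofFn fun k => Y (π k)).prod =
      Finsupp.linearCombination F
        (fun v : List (Fin (k + m)) => (v.map (ev a b)).prod) (α π • R (W S π)) := by
    intro π
    rw [map_smul, ← hR2 _ _ he, W_prod]
    congr 3
    funext i
    exact hY _
  rw [Finset.sum_congr rfl (fun π _ => h1 π), ← map_sum, hρ S hS, map_zero]

end main

end Pool.Agent.V7H58.JE
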