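import Mathlib

/-! Let `J` be a subspace of an associative algebra (characteristic not two) closed under
`x y + y x` and let `a 0, ..., a (k-1)` be elements of `J`. All products of the `a i` are
combinations of products `j w` with `j ∈ J` and `w` a product of at most `k` of the `a i`. -/

namespace Pool.Agent.V7H58.JE

universe u v

variable {F : Type u} [Field F] {C : Type v} [Ring C] [Algebra F C]

/-- the combinations of the products `j w`, `j ∈ J`, `w` a product of fewer than `s` of the
`a i` -/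
def M (J : Submodule F C) {k : ℕ} (a : Fin k → C) (s : ℕ) : Submodule F C :=
  Submodule.span F {z | ∃ j ∈ J, ∃ w : List (Fin k), w.length < s ∧ z = j * (w.map a).prod}

variable {J : Submodule F C} {k : ℕ} {a : Fin k → C}

theorem mem_M {j : C} (hj : j ∈ J) (w : List (Fin k)) {s : ℕ} (hs : w.length < s) :
    j * (w.map a).prod ∈ M J a s :=
  Submodule.subset_span ⟨j, hj, w, hs, rfl⟩

theorem M_mono {s t : ℕ} (h : s ≤ t) : M J a s ≤ M J a t := by
  apply Submodule.span_mono
  rintro z ⟨j, hj, w, hw, rfl⟩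
  exact ⟨j, hj, w, lt_of_lt_of_le hw h, rfl⟩

theorem left_mul (hJ : ∀ x ∈ J, ∀ y ∈ J, x * y + y * x ∈ J) (ha : ∀ i, a i ∈ J) (i : Fin k)
    {s : ℕ} {z : C} (hz : z ∈ M J a s) : a i * z ∈ M J a (s + 1) := by
  unfold M at hz
  induction hz using Submodule.span_induction with
  | mem z hz =>
    obtain ⟨j, hj, w, hw, rfl⟩ := hz
    have h1 := mem_M (a := a) (hJ _ (ha i) _ hj) w (s := s + 1) (by omega)
    have h2 := mem_M (a := a) hj (i :: w) (s := s + 1) (by simpa using hw)
    have h3 : a i * (j * (w.map a).prod) =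
        (a i * j + j * a i) * (w.map a).prod - j * ((i :: w).map a).prod := by
      rw [List.map_cons, List.prod_cons]
      noncomm_ring
    rw [h3]
    exact Submodule.sub_mem _ h1 h2
  | zero => rw [mul_zero]; exact Submodule.zero_mem _
  | add x y _ _ hx hy => rw [mul_add]; exact Submodule.add_mem _ hx hy
  | smul c x _ hx => rw [mul_smul_comm]; exact Submodule.smul_mem _ c hx

theorem half_mem (h2 : (2 : F) ≠ 0) (S : Submodule F C) {z : C} (hz : z + z ∈ S) : z ∈ S := by
  have h := S.smul_mem (2 : F)⁻¹ hz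
  rwa [← two_smul F z, smul_smul, inv_mul_cancel₀ h2, one_smul] at h

/-- the first two letters anticommute modulo shorter products -/
theorem swap (h2 : (2 : F) ≠ 0) (hJ : ∀ x ∈ J, ∀ y ∈ J, x * y + y * x ∈ J)
    (ha : ∀ i, a i ∈ J) (i i' : Fin k) (w : List (Fin k)) {j : C} (hj : j ∈ J) :
    j * ((i :: i' :: w).map a).prod + j * ((i' :: i :: w).map a).prod ∈
      M J a (w.length + 2) := by
  apply half_mem h2
  set p := (w.map a).prod with hp
  set x := a i with hx
  set y := a i' with hy
  have hxJ : x ∈ J := ha i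
  have hyJ : y ∈ J := ha i'
  have hb := hJ x hxJ y hyJ
  have hxj := hJ x hxJ j hj
  have hyj := hJ y hyJ j hj
  have e1 := mem_M (a := a) (hJ _ hj _ hb) w (s := w.length + 2) (by omega)
  have e2 := mem_M (a := a) hxj (i' :: w) (s := w.length + 2) (by simp)
  have e3 := mem_M (a := a) hyj (i :: w) (s := w.length + 2) (by simp)
  have e4 := mem_M (a := a) (hJ _ hxJ _ hyj) w (s := w.length + 2) (by omega)
  have e5 := mem_M (a := a) (hJ _ hyJ _ hxj) w (s := w.length + 2) (by omega)
  rw [List.map_cons, List.prod_cons, ← hp] at e2 e3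
  rw [← hx] at e3
  rw [← hy] at e2
  rw [← hp] at e1 e4 e5
  have key := Submodule.sub_mem _ (Submodule.sub_mem _ (Submodule.add_mem _ (Submodule.add_mem _
    (Submodule.add_mem _ (Submodule.add_mem _ e1 e2) e2) e3) e3) e4) e5
  convert key using 1
  simp only [List.map_cons, List.prod_cons, ← hp, ← hx, ← hy]
  noncomm_ring

theorem perm_mem (h2 : (2 : F) ≠ 0) (hJ : ∀ x ∈ J, ∀ y ∈ J, x * y + y * x ∈ J)
    (ha : ∀ i, a i ∈ J) {w w' : List (Fin k)} (h : w.Perm w') :
    ∃ ε : F, ∀ j ∈ J, j * (w.map a).prod - ε • (j * (w'.map a).prod) ∈ M J a w.length := by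
  induction h with
  | nil => exact ⟨1, fun j _ => by simp⟩
  | @cons x l l' hl ih =>
    obtain ⟨ε, hε⟩ := ih
    refine ⟨ε, fun j hj => ?_⟩
    have h1 := left_mul hJ ha x (hε j hj)
    have hxj := hJ _ (ha x) _ hj
    have e1 := mem_M (a := a) hxj l (s := l.length + 1) (by omega)
    have e2 := mem_M (a := a) hxj l' (s := l.length + 1) (by rw [hl.length_eq]; omega)
    have key := Submodule.sub_mem _ (Submodule.sub_mem _ e1 (Submodule.smul_mem _ ε e2)) h1
    rw [List.length_cons]
    convert key using 1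
    simp only [List.map_cons, List.prod_cons, mul_sub, mul_smul_comm, add_mul, smul_add]
    simp only [← mul_assoc]
    abel
  | swap x y l =>
    refine ⟨-1, fun j hj => ?_⟩
    have := swap h2 hJ ha y x l hj
    simpa [sub_neg_eq_add] using this
  | @trans l1 l2 l3 h12 h23 ih1 ih2 =>
    obtain ⟨ε, hε⟩ := ih1
    obtain ⟨δ, hδ⟩ := ih2
    refine ⟨ε * δ, fun j hj => ?_⟩
    have e1 := hε j hj
    have e2 := hδ j hj
    rw [← h12.length_eq] at e2
    have key := Submodule.add_mem _ e1 (Submodule.smul_mem _ ε e2)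
    convert key using 1
    rw [smul_sub, smul_smul]
    abel

theorem dup_mem (h2 : (2 : F) ≠ 0) (hJ : ∀ x ∈ J, ∀ y ∈ J, x * y + y * x ∈ J)
    (ha : ∀ i, a i ∈ J) {w : List (Fin k)} (hw : ¬ w.Nodup) {j : C} (hj : j ∈ J) :
    j * (w.map a).prod ∈ M J a w.length := by
  obtain ⟨x, hx⟩ := List.exists_duplicate_iff_not_nodup.2 hw
  have h1 : [x, x].Sublist w := List.duplicate_iff_sublist.1 hx
  obtain ⟨l, hl⟩ := h1.exists_perm_append
  obtain ⟨ε, hε⟩ := perm_mem (a := a) h2 hJ ha hl
  have e1 := hε j hj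
  have e2 := half_mem h2 _ (swap h2 hJ ha x x l hj)
  have hlen : w.length = l.length + 2 := by
    rw [hl.length_eq]; simp
  rw [← hlen] at e2
  have key := Submodule.add_mem _ e1 (Submodule.smul_mem _ ε e2)
  simpa using key

theorem M_le (h2 : (2 : F) ≠ 0) (hJ : ∀ x ∈ J, ∀ y ∈ J, x * y + y * x ∈ J)
    (ha : ∀ i, a i ∈ J) (s : ℕ) : M J a s ≤ M J a (k + 1) := by
  induction s with
  | zero => exact M_mono (by omega)
  | succ s ih =>
    apply Submodule.span_le.2
    rintro z ⟨j, hj, w, hw, rfl⟩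
    rcases Nat.lt_or_ge w.length (k + 1) with h | h
    · exact mem_M hj w h
    · have hnd : ¬ w.Nodup := by
        intro hnd
        have := hnd.length_le_card
        simp at this
        omega
      have h3 := dup_mem h2 hJ ha hnd hj
      exact ih (M_mono (by omega) h3)

/-- every product of the `a i` is in `M (k + 1)` -/
theorem word_mem (h2 : (2 : F) ≠ 0) (hJ : ∀ x ∈ J, ∀ y ∈ J, x * y + y * x ∈ J)
    (ha : ∀ i, a i ∈ J) (i : Fin k) (w : List (Fin k)) :
    ((i :: w).map a).prod ∈ M J a (k + 1) := by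
  rw [List.map_cons, List.prod_cons]
  exact M_le h2 hJ ha _ (mem_M (ha i) w (Nat.lt_succ_self _))

end Pool.Agent.V7H58.JE
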